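import Mathlib
import Pool.Agent.X43.HamLLL

set_option autoImplicit false

/-!
# Vertex-transitive families blocking (2,2)-acceptable Hamilton cycles have cubic size

`n ^ 3 / 262144 < v(n) ≤ n ^ 3` for all `n ≥ 6`.  The lower bound is the lopsided local lemma for
random cyclic orderings: in a vertex-transitive family all vertices have the same degree
`4 |F| / n`.  The upper bound is the family of all 4-sets containing two cyclically consecutive
vertices.
-/

namespace Pool.Agent.Results.MP_ef0d97_co.CubicGrowth

open Finset Pool.Agent.X43.HamLLL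

/-- `F` is vertex-transitive: the permutations of `[n]` mapping `F` to itself act transitively. -/
def VertexTransitive {n : ℕ} (F : Finset (Finset (Fin n))) : Prop :=
  ∀ a b : Fin n, ∃ σ : Equiv.Perm (Fin n), F.image (fun A => A.image σ) = F ∧ σ a = b

/-- The Hamilton cycle `π 0, π 1, …, π (n - 1)`, `π 0` is `(2,2)`-acceptable with respect to `F`:
no union of two vertex-disjoint edges of the cycle is a member of `F`. -/
def IsAcceptable {n : ℕ} (F : Finset (Finset (Fin n))) (π : ZMod n ≃ Fin n) : Prop :=
  ∀ i j : ZMod n, Disjoint ({π i, π (i + 1)} : Finset (Fin n)) {π j, π (j + 1)} →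
    ({π i, π (i + 1)} ∪ {π j, π (j + 1)} : Finset (Fin n)) ∉ F

/-- `F` is a family of 4-subsets of `[n]` for which there is no acceptable Hamilton cycle. -/
def Blocking {n : ℕ} (F : Finset (Finset (Fin n))) : Prop :=
  (∀ A ∈ F, A.card = 4) ∧ ¬ ∃ π : ZMod n ≃ Fin n, IsAcceptable F π

/-- `v(n)`: the minimum size of a vertex-transitive family of 4-subsets of `[n]` for which there
is no acceptable Hamilton cycle. -/
noncomputable def v (n : ℕ) : ℕ :=
  sInf {m : ℕ | ∃ F : Finset (Finset (Fin n)), Blocking F ∧ VertexTransitive F ∧ F.card = m}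

section Lower

variable {n : ℕ} [NeZero n]

/-- the degree of a vertex -/
def deg (F : Finset (Finset (Fin n))) (b : Fin n) : ℕ := (F.filter (fun A => b ∈ A)).card

theorem prod_aux : ∀ t : Fin 4, (∏ r : Fin 4, if r = t then 1 else 4) ≤ 64 := by decide

omit [NeZero n] in
theorem quads_one (F : Finset (Finset (Fin n))) (hF : ∀ A ∈ F, A.card = 4) (t : Fin 4)
    (b : Fin n) : ((quads F).filter fun x => x t = b).card ≤ 64 * deg F b := by
  have h1 : ((quads F).filter fun x => x t = b) ⊆
      (F.filter fun A => b ∈ A).biUnion fun A =>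
        Fintype.piFinset fun r : Fin 4 => if r = t then {b} else A := by
    intro x hx
    obtain ⟨hx1, hx2⟩ := Finset.mem_filter.1 hx
    obtain ⟨-, -, hx4⟩ := Finset.mem_filter.1 hx1
    refine Finset.mem_biUnion.2 ⟨_, Finset.mem_filter.2 ⟨hx4, ?_⟩, ?_⟩
    · rw [← hx2]; exact Finset.mem_image_of_mem _ (Finset.mem_univ _)
    · rw [Fintype.mem_piFinset]
      intro r
      split_ifs with h
      · rw [h, hx2]; exact Finset.mem_singleton_self b
      · exact Finset.mem_image_of_mem _ (Finset.mem_univ _)
  refine (Finset.card_le_card h1).trans (Finset.card_biUnion_le.trans ?_)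
  calc ∑ A ∈ F.filter (fun A => b ∈ A), (Fintype.piFinset fun r : Fin 4 =>
          if r = t then ({b} : Finset (Fin n)) else A).card
      ≤ ∑ A ∈ F.filter (fun A => b ∈ A), 64 := by
        apply Finset.sum_le_sum
        intro A hA
        have hA4 := hF A (Finset.mem_filter.1 hA).1
        rw [Fintype.card_piFinset]
        have h2 : ∀ r : Fin 4, (if r = t then ({b} : Finset (Fin n)) else A).card
            = if r = t then 1 else 4 := by
          intro r
          split_ifs
          · simp
          · exact hA4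
        rw [Finset.prod_congr rfl fun r _ => h2 r]
        exact prod_aux t
    _ = (F.filter (fun A => b ∈ A)).card * 64 := by rw [Finset.sum_const, smul_eq_mul]
    _ = 64 * deg F b := by unfold deg; ring

omit [NeZero n] in
theorem quads_all (F : Finset (Finset (Fin n))) (hF : ∀ A ∈ F, A.card = 4) {Δ : ℕ}
    (hΔ : ∀ b, deg F b ≤ Δ) : (quads F).card ≤ n * (64 * Δ) := by
  have h1 : (quads F) ⊆ (univ : Finset (Fin n)).biUnion fun a =>
      (quads F).filter fun x => x 0 = a := by
    intro x hx
    exact Finset.mem_biUnion.2 ⟨x 0, Finset.mem_univ _, Finset.mem_filter.2 ⟨hx, rfl⟩⟩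
  refine (Finset.card_le_card h1).trans (Finset.card_biUnion_le.trans ?_)
  calc _ ≤ ∑ _a : Fin n, 64 * Δ :=
        Finset.sum_le_sum fun a _ => (quads_one F hF 0 a).trans (Nat.mul_le_mul_left _ (hΔ a))
    _ = n * (64 * Δ) := by simp

theorem conf_le (F : Finset (Finset (Fin n))) (hF : ∀ A ∈ F, A.card = 4) {Δ : ℕ}
    (hΔ : ∀ b, deg F b ≤ Δ) (e : (Fin 4 → ZMod n) × (Fin 4 → Fin n)) :
    ((bad F).filter (Conf e)).card ≤ 2048 * (n * (n * Δ)) := by
  have hsub : (bad F).filter (Conf e) ⊆ (univ : Finset (Fin 4 × Fin 4)).biUnion fun st =>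
      (((univ.image (pos (n := n))).filter fun p => p st.2 = e.1 st.1) ×ˢ quads F) ∪
      ((univ.image (pos (n := n))) ×ˢ ((quads F).filter fun x => x st.2 = e.2 st.1)) := by
    intro e' he'
    obtain ⟨h1, s, t, h2⟩ := Finset.mem_filter.1 he'
    obtain ⟨h3, h4⟩ := Finset.mem_product.1 h1
    have h5 := (Finset.mem_filter.1 h3).1
    refine Finset.mem_biUnion.2 ⟨(s, t), Finset.mem_univ _, ?_⟩
    rcases h2 with h2 | h2
    · exact Finset.mem_union_left _ (Finset.mem_product.2 ⟨Finset.mem_filter.2 ⟨h5, h2.symm⟩, h4⟩)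
    · exact Finset.mem_union_right _ (Finset.mem_product.2 ⟨h5, Finset.mem_filter.2 ⟨h4, h2.symm⟩⟩)
  refine (Finset.card_le_card hsub).trans (Finset.card_biUnion_le.trans ?_)
  have hpos : (univ.image (pos (n := n))).card ≤ n * n := by
    refine Finset.card_image_le.trans (le_of_eq ?_)
    rw [Finset.card_univ, Fintype.card_prod, ZMod.card]
  calc _ ≤ ∑ _st : Fin 4 × Fin 4, 128 * (n * (n * Δ)) := by
        apply Finset.sum_le_sum
        intro st _
        refine (Finset.card_union_le _ _).trans ?_
        rw [Finset.card_product, Finset.card_product]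
        calc _ ≤ n * (n * (64 * Δ)) + n * n * (64 * Δ) := by
              gcongr
              · exact card_pos_image_le _ _
              · exact quads_all F hF hΔ
              · exact (quads_one F hF _ _).trans (Nat.mul_le_mul_left _ (hΔ _))
          _ = _ := by ring
    _ = _ := by
        rw [Finset.sum_const, Finset.card_univ]
        simp
        ring

theorem exists_acceptable' (hn : 6 ≤ n) (F : Finset (Finset (Fin n))) (hF : ∀ A ∈ F, A.card = 4)
    {Δ : ℕ} (hΔ : ∀ b, deg F b ≤ Δ) (hd : 65536 * Δ ≤ n * n) :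
    ∃ π : ZMod n ≃ Fin n, Acceptable F π := by
  classical
  have hcardV : Fintype.card (Fin n) = n := Fintype.card_fin n
  have : Nonempty (ZMod n ≃ Fin n) := by
    rw [← Fintype.card_eq]
    rw [ZMod.card, Fintype.card_fin]
  have hM : n * (n * (n * n)) ≤ 8 * (Fintype.card (Fin n)).descFactorial 4 := by
    rw [hcardV]
    obtain ⟨m, rfl⟩ : ∃ m, n = m + 6 := ⟨n - 6, by omega⟩
    have : (m + 6).descFactorial 4 = (m + 3) * ((m + 4) * ((m + 5) * (m + 6))) := by
      simp only [Nat.descFactorial_succ, Nat.descFactorial_zero, mul_one]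
      rfl
    rw [this]
    nlinarith [Nat.zero_le m, Nat.zero_le (m * m), Nat.zero_le (m * m * m), Nat.zero_le (m*m*m*m)]
  obtain ⟨π, hπ⟩ := lll (fun e : (Fin 4 → ZMod n) × (Fin 4 → Fin n) => ev e) (bad F) Conf
    ((Fintype.card (Fin n)).descFactorial 4) (2048 * (n * (n * Δ))) (by
      have : 6 * (6 * (6 * 6)) ≤ n * (n * (n * n)) := by gcongr
      omega)
    (by
      have h1 : n * n * (65536 * Δ) ≤ n * n * (n * n) := Nat.mul_le_mul_left _ hd
      have h2 : n * n * (n * n) = n * (n * (n * n)) := by ring
      have h3 : 65536 * (n * (n * Δ)) = n * n * (65536 * Δ) := by ring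
      omega)
    (fun e _ => conf_le F hF hΔ e) (fun e he S _ hS => by
      obtain ⟨-, h4⟩ := Finset.mem_product.1 he
      exact lopsided e (Finset.mem_filter.1 h4).2.1 S hS)
  refine ⟨π, fun i j hdisj hmem => ?_⟩
  rw [mem_good] at hπ
  have hadj : ∀ k : ZMod n, k ≠ k + 1 := by
    intro k h
    have h01 : (1 : ZMod n) = 0 := by
      have h2 : k + 1 = k + 0 := by rw [add_zero]; exact h.symm
      exact add_left_cancel h2
    have h2 : Fact (1 < n) := ⟨by omega⟩
    exact one_ne_zero h01
  rw [Finset.disjoint_left] at hdisj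
  have h02 : i ≠ j := by
    rintro rfl
    exact hdisj (Finset.mem_insert_self _ _) (Finset.mem_insert_self _ _)
  have h03 : i ≠ j + 1 := by
    rintro rfl
    exact hdisj (Finset.mem_insert_self _ _)
      (Finset.mem_insert_of_mem (Finset.mem_singleton_self _))
  have h12 : i + 1 ≠ j := by
    rintro rfl
    exact hdisj (Finset.mem_insert_of_mem (Finset.mem_singleton_self _))
      (Finset.mem_insert_self _ _)
  have h13 : i + 1 ≠ j + 1 := fun h => h02 (add_right_cancel h)
  have hinj0 : Function.Injective (pos (i, j)) := by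
    intro s t hst
    fin_cases s <;> fin_cases t <;>
      first
        | rfl
        | exact absurd hst (hadj _)
        | exact absurd hst.symm (hadj _)
        | exact absurd hst h02
        | exact absurd hst h03
        | exact absurd hst h12
        | exact absurd hst h13
        | exact absurd hst.symm h02
        | exact absurd hst.symm h03
        | exact absurd hst.symm h12
        | exact absurd hst.symm h13
  have hinj : Function.Injective fun s => π (pos (i, j) s) := π.injective.comp hinj0
  apply hπ (pos (i, j), fun s => π (pos (i, j) s))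
  · refine Finset.mem_product.2 ⟨Finset.mem_filter.2 ⟨Finset.mem_image_of_mem _ (mem_univ _), ?_⟩,
      Finset.mem_filter.2 ⟨mem_univ _, hinj, ?_⟩⟩
    · intro s t hst
      exact hinj (congrArg π hst)
    · convert hmem using 1
      ext v
      simp [pos, Fin.exists_fin_succ, eq_comm]
      tauto
  · rw [mem_ev]
    intro s
    rfl

end Lower

/-- in a vertex-transitive family of 4-sets `n * deg = 4 |F|` -/
lemma card_of_transitive {n : ℕ} (F : Finset (Finset (Fin n))) (hF : ∀ A ∈ F, A.card = 4)
    (hT : VertexTransitive F) (a : Fin n) : n * deg F a = 4 * F.card ∧ ∀ b, deg F b = deg F a := by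
  classical
  have hdeg : ∀ b, deg F b = deg F a := by
    have key : ∀ a b : Fin n, deg F a ≤ deg F b := by
      intro a b
      obtain ⟨σ, h1, h2⟩ := hT a b
      refine card_le_card_of_injOn (fun A => A.image σ) ?_ ?_
      · intro A hA
        rw [mem_coe, mem_filter] at hA ⊢
        refine ⟨?_, ?_⟩
        · rw [← h1]
          exact mem_image_of_mem _ hA.1
        · rw [← h2]
          exact mem_image_of_mem _ hA.2
      · intro A _ B _ h
        exact image_injective σ.injective h
    exact fun b => le_antisymm (key b a) (key a b)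
  refine ⟨?_, hdeg⟩
  have h1 : ∑ b, deg F b = ∑ A ∈ F, A.card := by
    have := sum_card_bipartiteAbove_eq_sum_card_bipartiteBelow (s := (univ : Finset (Fin n)))
      (t := F) (fun b A => b ∈ A)
    have h2 : ∀ A ∈ F, (bipartiteBelow (fun (b : Fin n) A => b ∈ A) univ A).card = A.card := by
      intro A _
      congr 1
      ext b
      simp [bipartiteBelow]
    rw [sum_congr rfl h2] at this
    exact this
  rw [sum_congr rfl (fun b _ => hdeg b), sum_congr rfl hF, sum_const, sum_const, card_univ,
    Fintype.card_fin, smul_eq_mul, smul_eq_mul] at h1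
  omega

/-- the lower bound -/
lemma lower {n : ℕ} (hn : 6 ≤ n) (F : Finset (Finset (Fin n))) (hB : Blocking F)
    (hT : VertexTransitive F) : n ^ 3 < 262144 * F.card := by
  have : NeZero n := ⟨by omega⟩
  by_contra hcon
  push Not at hcon
  have h := card_of_transitive F hB.1 hT 0
  apply hB.2
  obtain ⟨π, hπ⟩ := exists_acceptable' hn F hB.1 (Δ := deg F 0) (fun b => (h.2 b).le) (by
    have h1 : 65536 * (n * deg F 0) ≤ n ^ 3 := by rw [h.1]; omega
    have h2 : n * (65536 * deg F 0) ≤ n * (n * n) := by
      calc n * (65536 * deg F 0) = 65536 * (n * deg F 0) := by ring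
        _ ≤ n ^ 3 := h1
        _ = n * (n * n) := by ring
    exact Nat.le_of_mul_le_mul_left h2 (by omega))
  exact ⟨π, hπ⟩

/-- the family of all 4-sets containing two cyclically consecutive vertices -/
def cyc (n : ℕ) [NeZero n] : Finset (Finset (Fin n)) :=
  univ.filter (fun A => A.card = 4 ∧ ∃ a : Fin n, a ∈ A ∧ a + 1 ∈ A)

lemma cyc_transitive (n : ℕ) [NeZero n] : VertexTransitive (cyc n) := by
  intro a b
  refine ⟨Equiv.addRight (b - a), ?_, by simp⟩
  have key : ∀ c : Fin n, ∀ A ∈ cyc n, A.image (Equiv.addRight c) ∈ cyc n := by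
    intro c A hA
    simp only [cyc, mem_filter, mem_univ, true_and] at hA ⊢
    obtain ⟨h1, x, h2, h3⟩ := hA
    refine ⟨?_, x + c, ?_, ?_⟩
    · rw [card_image_of_injective _ (Equiv.addRight c).injective, h1]
    · exact mem_image_of_mem _ h2
    · have : x + c + 1 = (Equiv.addRight c) (x + 1) := by
        rw [Equiv.coe_addRight]
        exact add_right_comm x c 1
      rw [this]
      exact mem_image_of_mem _ h3
  apply Subset.antisymm
  · intro A hA
    rw [mem_image] at hA
    obtain ⟨B, hB, rfl⟩ := hA
    exact key _ B hB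
  · intro A hA
    rw [mem_image]
    refine ⟨A.image (Equiv.addRight (-(b - a))), key _ A hA, ?_⟩
    rw [image_image]
    have h : (fun x : Fin n => (Equiv.addRight (b - a)) ((Equiv.addRight (-(b - a))) x)) = id := by
      funext x
      change x + -(b - a) + (b - a) = x
      exact neg_add_cancel_right x (b - a)
    change A.image (fun x : Fin n => (Equiv.addRight (b - a)) ((Equiv.addRight (-(b - a))) x)) = A
    rw [h, image_id]

lemma cyc_card (n : ℕ) [NeZero n] : (cyc n).card ≤ n ^ 3 := by
  classical
  have hsub : cyc n ⊆ (univ : Finset (Fin n × Fin n × Fin n)).image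
      (fun p => {p.1, p.1 + 1, p.2.1, p.2.2}) := by
    intro A hA
    simp only [cyc, mem_filter, mem_univ, true_and] at hA
    obtain ⟨h1, x, h2, h3⟩ := hA
    have h4 : ((A.erase x).erase (x + 1)).card ≤ 2 := by
      by_cases hx : x + 1 = x
      · exfalso
        -- then `n = 1`, impossible as `A` has four elements
        have h5 : (1 : Fin n) = 0 := by
          have : x + 1 = x + 0 := by rw [add_zero]; exact hx
          exact add_left_cancel this
        have h6 : n = 1 := by
          have h7 := congrArg Fin.val h5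
          rw [Fin.val_one', Fin.val_zero] at h7
          have := NeZero.pos n
          rcases Nat.lt_or_ge 1 n with h8 | h8
          · rw [Nat.mod_eq_of_lt h8] at h7
            omega
          · omega
        have h7 := card_le_univ A
        rw [Fintype.card_fin] at h7
        omega
      · rw [card_erase_of_mem (mem_erase.2 ⟨hx, h3⟩), card_erase_of_mem h2]
        omega
    have h4' : 2 ≤ ((A.erase x).erase (x + 1)).card := by
      have h5 := pred_card_le_card_erase (s := A) (a := x)
      have h6 := pred_card_le_card_erase (s := A.erase x) (a := x + 1)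
      omega
    obtain ⟨y, z, _, hyz⟩ := card_eq_two.1 (le_antisymm h4 h4')
    rw [mem_image]
    refine ⟨(x, y, z), mem_univ _, ?_⟩
    have h7 : ({y, z} : Finset (Fin n)) = (A.erase x).erase (x + 1) := hyz.symm
    ext w
    simp only [mem_insert, mem_singleton]
    have h8 : (w = y ∨ w = z) ↔ w ∈ (A.erase x).erase (x + 1) := by
      rw [← h7]; simp
    rw [h8, mem_erase, mem_erase]
    constructor
    · rintro (h | h | h)
      · rw [h]; exact h2
      · rw [h]; exact h3
      · exact h.2.2
    · intro h
      by_cases ha : w = x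
      · exact Or.inl ha
      · by_cases hb : w = x + 1
        · exact Or.inr (Or.inl hb)
        · exact Or.inr (Or.inr ⟨hb, ha, h⟩)
  refine (card_le_card hsub).trans (card_image_le.trans (le_of_eq ?_))
  rw [card_univ, Fintype.card_prod, Fintype.card_prod, Fintype.card_fin]
  ring

lemma cyc_blocking {n : ℕ} [NeZero n] (hn : 4 ≤ n) : Blocking (cyc n) := by
  classical
  refine ⟨fun A hA => ?_, ?_⟩
  · simp only [cyc, mem_filter, mem_univ, true_and] at hA
    exact hA.1
  · rintro ⟨π, hπ⟩
    -- two disjoint edges whose union contains two consecutive vertices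
    have main : ∀ i j : ZMod n, i ≠ j → i ≠ j + 1 → i + 1 ≠ j →
        (∃ a : Fin n, a ∈ ({π i, π (i + 1)} ∪ {π j, π (j + 1)} : Finset (Fin n)) ∧
          a + 1 ∈ ({π i, π (i + 1)} ∪ {π j, π (j + 1)} : Finset (Fin n))) → False := by
      intro i j h1 h2 h3 h4
      have hadj : ∀ k : ZMod n, k ≠ k + 1 := by
        intro k h
        have h01 : (1 : ZMod n) = 0 := by
          have h2 : k + 1 = k + 0 := by rw [add_zero]; exact h.symm
          exact add_left_cancel h2
        have h2 : Fact (1 < n) := ⟨by omega⟩
        exact one_ne_zero h01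
      have h5 : i + 1 ≠ j + 1 := fun h => h1 (add_right_cancel h)
      have hd : Disjoint ({π i, π (i + 1)} : Finset (Fin n)) {π j, π (j + 1)} := by
        rw [Finset.disjoint_left]
        intro w hw hw'
        simp only [mem_insert, mem_singleton] at hw hw'
        rcases hw with rfl | rfl <;> rcases hw' with h | h
        · exact h1 (π.injective h)
        · exact h2 (π.injective h)
        · exact h3 (π.injective h)
        · exact h5 (π.injective h)
      apply hπ i j hd
      simp only [cyc, mem_filter, mem_univ, true_and]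
      refine ⟨?_, h4⟩
      rw [card_union_of_disjoint hd, card_pair (fun h => hadj i (π.injective h)),
        card_pair (fun h => hadj j (π.injective h))]
    have hne : ∀ a b : ℕ, a < 4 → b < 4 → a ≠ b → ((a : ZMod n) ≠ (b : ZMod n)) := by
      intro a b ha hb hab h
      rw [ZMod.natCast_eq_natCast_iff'] at h
      rw [Nat.mod_eq_of_lt (by omega), Nat.mod_eq_of_lt (by omega)] at h
      exact hab h
    have e02 : (0 : ZMod n) ≠ 2 := by exact_mod_cast hne 0 2 (by omega) (by omega) (by omega)
    have e03 : (0 : ZMod n) ≠ 3 := by exact_mod_cast hne 0 3 (by omega) (by omega) (by omega)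
    have e12 : (1 : ZMod n) ≠ 2 := by exact_mod_cast hne 1 2 (by omega) (by omega) (by omega)
    -- the positions of `0` and `1`
    set i := π.symm 0 with hi
    set j := π.symm 1 with hj
    have hπi : π i = 0 := by rw [hi, Equiv.apply_symm_apply]
    have hπj : π j = 1 := by rw [hj, Equiv.apply_symm_apply]
    have shift : ∀ a : ZMod n, a ≠ a + 2 ∧ a ≠ a + 2 + 1 ∧ a + 1 ≠ a + 2 := by
      intro a
      refine ⟨fun h => e02 ?_, fun h => e03 ?_, fun h => e12 (add_left_cancel h)⟩
      · have : a + 0 = a + 2 := by rw [add_zero]; exact h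
        exact add_left_cancel this
      · have h' : a + 0 = a + (2 + 1) := by rw [add_zero, ← add_assoc]; exact h
        have := add_left_cancel h'
        rw [this]
        norm_num
    have h01 : (0 : Fin n) + 1 = 1 := zero_add 1
    by_cases c1 : j = i + 1
    · obtain ⟨s1, s2, s3⟩ := shift i
      refine main i (i + 2) s1 s2 s3 ⟨0, ?_, ?_⟩
      · rw [← hπi]; simp
      · rw [h01, ← hπj, c1]; simp
    · by_cases c2 : i = j + 1
      · obtain ⟨s1, s2, s3⟩ := shift j
        refine main j (j + 2) s1 s2 s3 ⟨0, ?_, ?_⟩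
        · rw [← hπi, c2]; simp
        · rw [h01, ← hπj]; simp
      · have c3 : i ≠ j := by
          intro h
          have h' : (0 : Fin n) = 1 := by rw [← hπi, ← hπj, h]
          have h7 := congrArg Fin.val h'
          rw [Fin.val_one', Fin.val_zero, Nat.mod_eq_of_lt (by omega)] at h7
          omega
        refine main i j c3 c2 (fun h => c1 h.symm) ⟨0, ?_, ?_⟩
        · rw [← hπi]; simp
        · rw [h01, ← hπj]; simp

/-- **Theorem.** `v(n) = Θ(n ^ 3)`: for all `n ≥ 6`, `n ^ 3 < 262144 * v(n)` and `v(n) ≤ n ^ 3`.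
In particular there is no constant `c` with `v(n) ≤ c n ^ 2` for all `n ≥ 4`. -/
theorem result :
    (∀ n : ℕ, 6 ≤ n → n ^ 3 < 262144 * v n ∧ v n ≤ n ^ 3) ∧
    ¬ ∃ c : ℝ, ∀ n : ℕ, 4 ≤ n → (v n : ℝ) ≤ c * (n : ℝ) ^ 2 := by
  have main : ∀ n : ℕ, 6 ≤ n → n ^ 3 < 262144 * v n ∧ v n ≤ n ^ 3 := by
    intro n hn
    have : NeZero n := ⟨by omega⟩
    have hne : {m : ℕ | ∃ F : Finset (Finset (Fin n)), Blocking F ∧ VertexTransitive F ∧
        F.card = m}.Nonempty :=
      ⟨_, cyc n, cyc_blocking (by omega), cyc_transitive n, rfl⟩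
    constructor
    · obtain ⟨F, hB, hT, hF⟩ := Nat.sInf_mem hne
      have h := lower hn F hB hT
      rw [hF] at h
      exact h
    · have h1 : v n ≤ (cyc n).card :=
        Nat.sInf_le ⟨cyc n, cyc_blocking (by omega), cyc_transitive n, rfl⟩
      exact h1.trans (cyc_card n)
  refine ⟨main, ?_⟩
  rintro ⟨c, hc⟩
  obtain ⟨N, hN⟩ := exists_nat_gt (262144 * c)
  set n := max 6 N with hn
  have hn6 : 6 ≤ n := le_max_left _ _
  have h1 := (main n hn6).1
  have h2 := hc n (by omega)
  have h3 : ((n ^ 3 : ℕ) : ℝ) < 262144 * (v n : ℝ) := by exact_mod_cast h1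
  push_cast at h3
  have h4 : (262144 * c : ℝ) < n := hN.trans_le (by exact_mod_cast le_max_right 6 N)
  have h5 : (0 : ℝ) < (n : ℝ) ^ 2 := by positivity
  nlinarith

end Pool.Agent.Results.MP_ef0d97_co.CubicGrowth
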